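import Pool.Agent.H61DIS.Gen3
import Pool.Agent.D88.Num

/-!
# Caps for `mi_2(G) <= 6^(n/9)`, step (II): a vertex of degree at most three

`Ctx` is the context of the proof by contradiction: `x^9 = 1/6`, the induction hypotheses, minimum
degree at least three, and `2 x^4 < h(S)`.
-/

open Finset Classical H61DIS

namespace D28

noncomputable section

variable {V : Type*} {G : SimpleGraph V} {S : Finset V} {x : ℝ}

/-- Closed neighbourhood of `u` in `S`. -/
def cl (G : SimpleGraph V) (S : Finset V) (u : V) : Finset V := insert u (nb G S u)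

theorem mem_cl {u y : V} : y ∈ cl G S u ↔ y = u ∨ (y ∈ S ∧ G.Adj u y) := by
  unfold cl
  rw [Finset.mem_insert, mem_nb]

theorem cl_card (u : V) : (cl G S u).card = dg G S u + 1 := by
  unfold cl
  rw [Finset.card_insert_of_notMem (fun hh => G.irrefl (mem_nb.mp hh).2)]
  rfl

theorem cl_sub {u : V} (hu : u ∈ S) : cl G S u ⊆ S := by
  intro y hy
  rcases mem_cl.mp hy with rfl | h
  · exact hu
  · exact h.1

theorem cl_blocked {T R : Finset V} {u : V} (hu : u ∈ T) : ∀ y ∈ cl G S u, y ∉ rem G S T R := by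
  intro y hy
  rcases mem_cl.mp hy with rfl | h
  · exact not_mem_rem_of_mem hu
  · exact not_mem_rem_of_adj hu h.2

/-- The number of common neighbours of `u` and `w` in `S`. -/
def cn (G : SimpleGraph V) (S : Finset V) (u w : V) : ℕ := (nb G S u ∩ nb G S w).card

theorem cn_comm (u w : V) : cn G S u w = cn G S w u := by
  unfold cn; rw [Finset.inter_comm]

theorem cn_le_left (u w : V) : cn G S u w ≤ dg G S u := Finset.card_le_card Finset.inter_subset_left

theorem cn_le_right (u w : V) : cn G S u w ≤ dg G S w :=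
  Finset.card_le_card Finset.inter_subset_right

theorem cn_pos {v u w : V} (hv : v ∈ S) (hu : G.Adj u v) (hw : G.Adj w v) : 1 ≤ cn G S u w := by
  unfold cn
  exact Finset.card_pos.mpr ⟨v, Finset.mem_inter.mpr ⟨mem_nb.mpr ⟨hv, hu⟩, mem_nb.mpr ⟨hv, hw⟩⟩⟩

/-- No further common neighbours. -/
theorem cn_le_one {v u w : V} (H : ∀ z ∈ S, z ≠ v → G.Adj u z → ¬ G.Adj w z) :
    cn G S u w ≤ 1 := by
  unfold cn
  rw [Finset.card_le_one]
  have key : ∀ z ∈ nb G S u ∩ nb G S w, z = v := by
    intro z hz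
    rw [Finset.mem_inter, mem_nb, mem_nb] at hz
    by_contra hne
    exact H z hz.1.1 hne hz.1.2 hz.2.2
  intro a ha b hb
  rw [key a ha, key b hb]

theorem cl_union_card {u w : V} (huw : u ≠ w) (hna : ¬ G.Adj u w) :
    (cl G S u ∪ cl G S w).card + cn G S u w = dg G S u + dg G S w + 2 := by
  have h1 := Finset.card_union_add_card_inter (cl G S u) (cl G S w)
  have h2 : cl G S u ∩ cl G S w = nb G S u ∩ nb G S w := by
    ext y
    rw [Finset.mem_inter, Finset.mem_inter, mem_cl, mem_cl, mem_nb, mem_nb]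
    constructor
    · rintro ⟨rfl | h3, rfl | h4⟩
      · exact absurd rfl huw
      · exact absurd h4.2.symm hna
      · exact absurd h3.2 hna
      · exact ⟨h3, h4⟩
    · rintro ⟨h3, h4⟩
      exact ⟨Or.inr h3, Or.inr h4⟩
  rw [h2, cl_card, cl_card] at h1
  unfold cn
  omega

/-- A cover of all sets by finitely many branches. -/
theorem coverL (hx0 : 0 ≤ x) (L : List (Finset V)) (H : ∀ D ∈ dis G S, ∃ T ∈ L, T ⊆ D) :
    h G x S ≤ (L.map (fun T => B G x S T ∅)).sum := by
  have key : ∀ (L : List (Finset V)) (A : Finset (Finset V)), A ⊆ dis G S →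
      (∀ D ∈ A, ∃ T ∈ L, T ⊆ D) → A.card ≤ (L.map (fun T => cnt G S T ∅)).sum := by
    intro L
    induction L with
    | nil =>
      intro A hA hH
      have : A = ∅ := by
        rw [Finset.eq_empty_iff_forall_notMem]
        intro D hD
        obtain ⟨T, hT, -⟩ := hH D hD
        exact absurd hT List.not_mem_nil
      simp [this]
    | cons T L ih =>
      intro A hA hH
      have h1 : (A.filter (fun D => T ⊆ D)).card ≤ cnt G S T ∅ := by
        unfold cnt
        apply Finset.card_le_card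
        intro D hD
        rw [Finset.mem_filter] at hD ⊢
        exact ⟨hA hD.1, hD.2, by simp⟩
      have h2 : (A.filter (fun D => ¬ T ⊆ D)).card ≤ (L.map (fun T => cnt G S T ∅)).sum := by
        apply ih
        · exact (Finset.filter_subset _ _).trans hA
        · intro D hD
          rw [Finset.mem_filter] at hD
          obtain ⟨T', hT', hsub⟩ := hH D hD.1
          rcases List.mem_cons.mp hT' with rfl | hh
          · exact absurd hsub hD.2
          · exact ⟨T', hh, hsub⟩
      have h3 := Finset.card_filter_add_card_filter_not (s := A) (fun D => T ⊆ D)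
      rw [List.map_cons, List.sum_cons]
      omega
  have h1 := key L (dis G S) (Finset.Subset.refl _) H
  have h2 : ((dis G S).card : ℝ) ≤ (((L.map (fun T => cnt G S T ∅)).sum : ℕ) : ℝ) := by
    exact_mod_cast h1
  have h3 : ∀ L : List (Finset V), (L.map (fun T => B G x S T ∅)).sum =
      (((L.map (fun T => cnt G S T ∅)).sum : ℕ) : ℝ) * x ^ S.card := by
    intro L
    induction L with
    | nil => simp
    | cons T L ih =>
      rw [List.map_cons, List.sum_cons, List.map_cons, List.sum_cons, ih]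
      push_cast
      unfold B
      ring
  rw [h3]
  unfold h
  exact mul_le_mul_of_nonneg_right h2 (by positivity)

/-- Splitting one branch into two. -/
theorem B_split (hx0 : 0 ≤ x) {T T1 T2 : Finset V}
    (H : ∀ D ∈ dis G S, T ⊆ D → T1 ⊆ D ∨ T2 ⊆ D) :
    B G x S T ∅ ≤ B G x S T1 ∅ + B G x S T2 ∅ := by
  have h1 : cnt G S T ∅ ≤ cnt G S T1 ∅ + cnt G S T2 ∅ := by
    unfold cnt
    refine le_trans (Finset.card_le_card ?_) (Finset.card_union_le _ _)
    intro D hD
    rw [Finset.mem_union, Finset.mem_filter, Finset.mem_filter]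
    rw [Finset.mem_filter] at hD
    rcases H D hD.1 hD.2.1 with hh | hh
    · exact Or.inl ⟨hD.1, hh, by simp⟩
    · exact Or.inr ⟨hD.1, hh, by simp⟩
  have h2 : (cnt G S T ∅ : ℝ) ≤ (cnt G S T1 ∅ : ℝ) + (cnt G S T2 ∅ : ℝ) := by exact_mod_cast h1
  unfold B
  rw [← add_mul]
  exact mul_le_mul_of_nonneg_right h2 (by positivity)

theorem sub_pair {a b : V} {D : Finset V} (ha : a ∈ D) (hb : b ∈ D) : ({a, b} : Finset V) ⊆ D := by
  intro y hy
  simp only [Finset.mem_insert, Finset.mem_singleton] at hy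
  rcases hy with rfl | rfl <;> assumption

theorem sub_quad {a b c d : V} {D : Finset V} (ha : a ∈ D) (hb : b ∈ D) (hc : c ∈ D)
    (hd : d ∈ D) : ({a, b, c, d} : Finset V) ⊆ D := by
  intro y hy
  simp only [Finset.mem_insert, Finset.mem_singleton] at hy
  rcases hy with rfl | rfl | rfl | rfl <;> assumption

theorem sub_one {a : V} {D : Finset V} (ha : a ∈ D) : ({a} : Finset V) ⊆ D := by
  simpa using ha

/-- The neighbours of a cubic vertex, a given one first. -/
theorem exists_fst {u v : V} (hu : u ∈ S) (hd : dg G S u = 3) (hv : v ∈ nb G S u) :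
    ∃ p q, N3 G S u v p q := by
  obtain ⟨a, b, c, E⟩ := N3.exists hu hd
  rcases E.all v hv with rfl | rfl | rfl
  · exact ⟨b, c, E⟩
  · exact ⟨a, c, E.s12⟩
  · exact ⟨a, b, E.s23.s12⟩

/-- The context of the proof by contradiction. -/
structure Ctx (G : SimpleGraph V) (S : Finset V) (x : ℝ) : Prop where
  hx0 : 0 < x
  hx : x ^ 9 = 1 / 6
  IH1 : ∀ S', S' ⊂ S → h G x S' ≤ 1
  IH2 : ∀ S', S' ⊂ S → (∃ v ∈ S', dg G S' v ≤ 3) → h G x S' ≤ 2 * x ^ 4
  h3 : ∀ w ∈ S, 3 ≤ dg G S w
  hH : 2 * x ^ 4 < h G x S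

namespace Ctx

theorem x0 (C : Ctx G S x) : 0 ≤ x := C.hx0.le

theorem x1 (C : Ctx G S x) : x ≤ 1 := by
  have := D88.num_lt C.hx0 C.hx
  linarith

/-- General cap. -/
theorem cap (C : Ctx G S x) {T U : Finset V} {t : V} (ht : t ∈ T) (htS : t ∈ S) (hU : U ⊆ S)
    (hb : ∀ u ∈ U, u ∉ rem G S T ∅) {k : ℕ} (hk : k ≤ U.card) : B G x S T ∅ ≤ x ^ k := by
  have := B_le (G := G) (S := S) (T := T) (R := ∅) C.x0 C.x1 (C.IH1 _ (rem_ssubset htS ht))
    (k := k) (by have := card_blocked (G := G) hU hb; omega)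
  linarith

/-- General cap when the rest has a vertex of degree at most three. -/
theorem capL (C : Ctx G S x) {T U : Finset V} {t : V} (ht : t ∈ T) (htS : t ∈ S) (hU : U ⊆ S)
    (hb : ∀ u ∈ U, u ∉ rem G S T ∅) {k : ℕ} (hk : k ≤ U.card)
    (hlow : ∃ y ∈ rem G S T ∅, dg G (rem G S T ∅) y ≤ 3) : B G x S T ∅ ≤ 2 * x ^ (k + 4) := by
  have := B_le (G := G) (S := S) (T := T) (R := ∅) C.x0 C.x1 (C.IH2 _ (rem_ssubset htS ht) hlow)
    (k := k) (by have := card_blocked (G := G) hU hb; omega)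
  have e : 2 * x ^ (k + 4) = (2 * x ^ 4) * x ^ k := by ring
  rw [e]; exact this

/-- Cap for one vertex. -/
theorem single (C : Ctx G S x) {u : V} (hu : u ∈ S) {k : ℕ} (hk : k ≤ dg G S u + 1) :
    B G x S {u} ∅ ≤ x ^ k :=
  C.cap (U := cl G S u) (Finset.mem_singleton_self u) hu (cl_sub hu)
    (cl_blocked (Finset.mem_singleton_self u)) (by rw [cl_card]; exact hk)

/-- Cap for one vertex, `w` becoming low. -/
theorem singleL (C : Ctx G S x) {u w : V} (hu : u ∈ S) (hw : w ∈ S) (hwu : w ≠ u)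
    (hna : ¬ G.Adj u w) (hlow : dg G S w ≤ 3 + cn G S u w) {k : ℕ} (hk : k ≤ dg G S u + 1) :
    B G x S {u} ∅ ≤ 2 * x ^ (k + 4) := by
  apply C.capL (U := cl G S u) (Finset.mem_singleton_self u) hu (cl_sub hu)
    (cl_blocked (Finset.mem_singleton_self u)) (by rw [cl_card]; exact hk)
  refine ⟨w, mem_rem_single hw hwu hna, ?_⟩
  have := dg_rem (G := G) (S := S) (T := {u}) (R := ∅) (Q := nb G S u ∩ nb G S w) (w := w)
    Finset.inter_subset_right (by
      intro y hy
      exact not_mem_rem_of_adj (t := u) (by simp) (mem_nb.mp (Finset.mem_inter.mp hy).1).2)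
  unfold cn at hlow
  omega

/-- Cap for two nonadjacent vertices. -/
theorem pair (C : Ctx G S x) {u w : V} (hu : u ∈ S) (hw : w ∈ S) (huw : u ≠ w)
    (hna : ¬ G.Adj u w) {k : ℕ} (hk : k + cn G S u w ≤ dg G S u + dg G S w + 2) :
    B G x S {u, w} ∅ ≤ x ^ k := by
  have h1 := cl_union_card (G := G) (S := S) huw hna
  apply C.cap (U := cl G S u ∪ cl G S w) (t := u) (by simp) hu
    (Finset.union_subset (cl_sub hu) (cl_sub hw)) _ (by omega)
  intro y hy
  rcases Finset.mem_union.mp hy with hy | hy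
  · exact cl_blocked (by simp) y hy
  · exact cl_blocked (by simp) y hy

/-- Cap for two nonadjacent vertices, `y` becoming low. -/
theorem pairL (C : Ctx G S x) {u w y : V} (hu : u ∈ S) (hw : w ∈ S) (huw : u ≠ w)
    (hna : ¬ G.Adj u w) (hy : y ∈ S) (hyu : y ≠ u) (hyw : y ≠ w) (hnu : ¬ G.Adj u y)
    (hnw : ¬ G.Adj w y) (hlow : dg G S y ≤ 3 + cn G S w y)
    {k : ℕ} (hk : k + cn G S u w ≤ dg G S u + dg G S w + 2) :
    B G x S {u, w} ∅ ≤ 2 * x ^ (k + 4) := by
  have h1 := cl_union_card (G := G) (S := S) huw hna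
  apply C.capL (U := cl G S u ∪ cl G S w) (t := u) (by simp) hu
    (Finset.union_subset (cl_sub hu) (cl_sub hw)) _ (by omega)
  · refine ⟨y, ?_, ?_⟩
    · rw [mem_rem]
      refine ⟨hy, by simp [hyu, hyw], by simp, ?_⟩
      intro t ht
      simp only [Finset.mem_insert, Finset.mem_singleton] at ht
      rcases ht with rfl | rfl
      · exact hnu
      · exact hnw
    · have := dg_rem (G := G) (S := S) (T := {u, w}) (R := ∅) (Q := nb G S w ∩ nb G S y) (w := y)
        Finset.inter_subset_right (by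
          intro z hz
          exact not_mem_rem_of_adj (t := w) (by simp) (mem_nb.mp (Finset.mem_inter.mp hz).1).2)
      unfold cn at hlow
      omega
  · intro y hy
    rcases Finset.mem_union.mp hy with hy | hy
    · exact cl_blocked (by simp) y hy
    · exact cl_blocked (by simp) y hy

/-- The blocked set of `{w, b, p, q}` when `p, q` are neighbours of `u`. -/
theorem quad_card {u w b p q : V} (hwb : w ≠ b) (hna : ¬ G.Adj w b)
    (huw : u ≠ w) (hub : u ≠ b) (hau : ¬ G.Adj w u) (hbu : ¬ G.Adj b u)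
    (hpu : p ≠ u) (hqu : q ≠ u) (hpq : p ≠ q)
    (hpw : p ≠ w) (hpb : p ≠ b) (hwp : ¬ G.Adj w p) (hbp : ¬ G.Adj b p)
    (hqw : q ≠ w) (hqb : q ≠ b) (hwq : ¬ G.Adj w q) (hbq : ¬ G.Adj b q) :
    ((cl G S w ∪ cl G S b) ∪ {u, p, q}).card + cn G S w b = dg G S w + dg G S b + 5 := by
  have h1 := cl_union_card (G := G) (S := S) hwb hna
  have hd : Disjoint (cl G S w ∪ cl G S b) ({u, p, q} : Finset V) := by
    rw [Finset.disjoint_left]
    intro y hy hy2
    rw [Finset.mem_union, mem_cl, mem_cl] at hy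
    simp only [Finset.mem_insert, Finset.mem_singleton] at hy2
    rcases hy2 with rfl | rfl | rfl
    · rcases hy with (h | h) | (h | h)
      · exact huw h
      · exact hau h.2
      · exact hub h
      · exact hbu h.2
    · rcases hy with (h | h) | (h | h)
      · exact hpw h
      · exact hwp h.2
      · exact hpb h
      · exact hbp h.2
    · rcases hy with (h | h) | (h | h)
      · exact hqw h
      · exact hwq h.2
      · exact hqb h
      · exact hbq h.2
  rw [Finset.card_union_of_disjoint hd, c3 hpu.symm hqu.symm hpq]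
  omega

/-- Cap for `{w, b, p, q}` with `p, q` neighbours of `u`. -/
theorem quad (C : Ctx G S x) {u w b p q : V} (hu : u ∈ S) (hw : w ∈ S) (hb : b ∈ S)
    (hwb : w ≠ b) (hna : ¬ G.Adj w b)
    (huw : u ≠ w) (hub : u ≠ b) (hau : ¬ G.Adj w u) (hbu : ¬ G.Adj b u)
    (hp : p ∈ nb G S u) (hq : q ∈ nb G S u) (hpq : p ≠ q)
    (hwp : ¬ G.Adj w p) (hbp : ¬ G.Adj b p) (hwq : ¬ G.Adj w q) (hbq : ¬ G.Adj b q)
    {k : ℕ} (hk : k + cn G S w b ≤ dg G S w + dg G S b + 5) :
    B G x S {w, b, p, q} ∅ ≤ x ^ k := by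
  have hp' := mem_nb.mp hp
  have hq' := mem_nb.mp hq
  have hpw : p ≠ w := by rintro rfl; exact hau hp'.2.symm
  have hpb : p ≠ b := by rintro rfl; exact hbu hp'.2.symm
  have hqw : q ≠ w := by rintro rfl; exact hau hq'.2.symm
  have hqb : q ≠ b := by rintro rfl; exact hbu hq'.2.symm
  have h1 := quad_card (G := G) (S := S) hwb hna huw hub hau hbu hp'.2.ne' hq'.2.ne' hpq hpw hpb
    hwp hbp hqw hqb hwq hbq
  apply C.cap (U := (cl G S w ∪ cl G S b) ∪ {u, p, q}) (t := w) (by simp) hw _ _ (by omega)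
  · apply Finset.union_subset (Finset.union_subset (cl_sub hw) (cl_sub hb))
    intro y hy
    simp only [Finset.mem_insert, Finset.mem_singleton] at hy
    rcases hy with rfl | rfl | rfl
    · exact hu
    · exact hp'.1
    · exact hq'.1
  · intro y hy
    rcases Finset.mem_union.mp hy with hy | hy
    · rcases Finset.mem_union.mp hy with hy | hy
      · exact cl_blocked (by simp) y hy
      · exact cl_blocked (by simp) y hy
    · simp only [Finset.mem_insert, Finset.mem_singleton] at hy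
      rcases hy with rfl | rfl | rfl
      · exact not_mem_rem_of_adj (t := p) (by simp) hp'.2.symm
      · exact not_mem_rem_of_mem (by simp)
      · exact not_mem_rem_of_mem (by simp)

/-- The neighbourhood of a cubic vertex is independent. -/
theorem indep (C : Ctx G S x) {v a b c : V} (E : N3 G S v a b c) : ¬ G.Adj a b := fun hab =>
  absurd (E.adj C.x0 C.x1 C.IH1 C.h3 hab) (not_le.mpr C.hH)

/-- The neighbourhood of a cubic vertex is independent (all pairs). -/
theorem indep3 (C : Ctx G S x) {v a b c : V} (E : N3 G S v a b c) :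
    ¬ G.Adj a b ∧ ¬ G.Adj a c ∧ ¬ G.Adj b c :=
  ⟨C.indep E, C.indep E.s23, C.indep E.s12.s23⟩

/-- If `v` or `u` is in every set, we are done. -/
theorem not_two (C : Ctx G S x) {v u : V} (hv : v ∈ S) (hu : u ∈ S)
    (H : ∀ D ∈ dis G S, v ∉ D → u ∈ D) : False := by
  have h1 : h G x S ≤ B G x S {v} ∅ + B G x S {u} ∅ := by
    apply cover2 C.x0
    intro D hD
    by_cases hvD : v ∈ D
    · left; exact ⟨by simpa using hvD, by simp⟩
    · right; exact ⟨by simpa using H D hD hvD, by simp⟩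
  have h2 := C.single hv (k := 4) (by have := C.h3 v hv; omega)
  have h3 := C.single hu (k := 4) (by have := C.h3 u hu; omega)
  have := C.hH
  linarith

/-- Pivoting: `v` cubic, `v, u ∉ D`; two elements of `D` in `N(u) - v - N(w) - N(b)`. -/
theorem pivot_two (C : Ctx G S x) {v u w b : V} (E : N3 G S v u w b) {D : Finset V}
    (hD : D ∈ dis G S) (hvD : v ∉ D) (huD : u ∉ D) :
    w ∈ D ∧ b ∈ D ∧ ∃ p q, p ≠ q ∧ p ∈ D ∧ q ∈ D ∧
      (p ∈ nb G S u ∧ p ≠ v ∧ ¬ G.Adj w p ∧ ¬ G.Adj b p) ∧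
      (q ∈ nb G S u ∧ q ≠ v ∧ ¬ G.Adj w q ∧ ¬ G.Adj b q) := by
  have hind := (mem_dis.mp hD).2.1
  have hwb : w ∈ D ∧ b ∈ D := by
    rcases E.pair hD hvD with h1 | h1 | h1
    · exact absurd h1.1 huD
    · exact absurd h1.1 huD
    · exact ⟨h1.1, h1.2.1⟩
  obtain ⟨p, q, hp, hq, hpq, hpD, hqD, -⟩ := two_of hD E.aS huD
  refine ⟨hwb.1, hwb.2, p, q, hpq, hpD, hqD, ⟨hp, ?_, hind w hwb.1 p hpD, hind b hwb.2 p hpD⟩,
    ⟨hq, ?_, hind w hwb.1 q hqD, hind b hwb.2 q hqD⟩⟩
  · rintro rfl; exact hvD hpD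
  · rintro rfl; exact hvD hqD

/-- The set `R_u`. -/
def RR (G : SimpleGraph V) (S : Finset V) (v u w b : V) : Finset V :=
  (nb G S u).filter (fun r => r ≠ v ∧ ¬ G.Adj w r ∧ ¬ G.Adj b r)

/-- `R_u` has at least two elements. -/
theorem RR_two (C : Ctx G S x) {v u w b : V} (E : N3 G S v u w b) : 2 ≤ (RR G S v u w b).card := by
  by_contra hlt
  apply C.not_two E.hv E.aS
  intro D hD hvD
  by_contra huD
  obtain ⟨-, -, p, q, hpq, -, -, hp, hq⟩ := C.pivot_two E hD hvD huD
  apply hlt
  have : 1 < (RR G S v u w b).card := Finset.one_lt_card.mpr ⟨p, by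
    unfold RR; rw [Finset.mem_filter]; exact hp, q, by
    unfold RR; rw [Finset.mem_filter]; exact hq, hpq⟩
  omega

/-- `c(u,w) + 2 ≤ deg u`. -/
theorem cn_add_two (C : Ctx G S x) {v u w b : V} (E : N3 G S v u w b) :
    cn G S u w + 2 ≤ dg G S u := by
  have h1 := C.RR_two E
  have hd : Disjoint (nb G S u ∩ nb G S w) (RR G S v u w b) := by
    rw [Finset.disjoint_left]
    intro y hy hy2
    unfold RR at hy2
    rw [Finset.mem_filter] at hy2
    exact hy2.2.2.1 (mem_nb.mp (Finset.mem_inter.mp hy).2).2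
  have h2 : (nb G S u ∩ nb G S w) ∪ RR G S v u w b ⊆ nb G S u :=
    Finset.union_subset Finset.inter_subset_left (Finset.filter_subset _ _)
  have h3 := Finset.card_le_card h2
  rw [Finset.card_union_of_disjoint hd] at h3
  unfold cn dg
  omega

/-- Pivoting with `R_u = {p, q}`. -/
theorem pivot_RR (C : Ctx G S x) {v u w b p q : V} (E : N3 G S v u w b)
    (hR : RR G S v u w b = {p, q}) :
    h G x S ≤ B G x S {v} ∅ + B G x S {u} ∅ + B G x S {w, b, p, q} ∅ := by
  have := coverL (G := G) (S := S) C.x0 [{v}, {u}, {w, b, p, q}] (by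
    intro D hD
    by_cases hvD : v ∈ D
    · exact ⟨{v}, by simp, sub_one hvD⟩
    by_cases huD : u ∈ D
    · exact ⟨{u}, by simp, sub_one huD⟩
    · obtain ⟨hw, hb, p', q', hpq, hp'D, hq'D, hp', hq'⟩ := C.pivot_two E hD hvD huD
      have k1 : p' ∈ RR G S v u w b := by unfold RR; rw [Finset.mem_filter]; exact hp'
      have k2 : q' ∈ RR G S v u w b := by unfold RR; rw [Finset.mem_filter]; exact hq'
      rw [hR] at k1 k2
      simp only [Finset.mem_insert, Finset.mem_singleton] at k1 k2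
      refine ⟨{w, b, p, q}, by simp, ?_⟩
      rcases k1 with rfl | rfl <;> rcases k2 with rfl | rfl
      · exact absurd rfl hpq
      · exact sub_quad hw hb hp'D hq'D
      · exact sub_quad hw hb hq'D hp'D
      · exact absurd rfl hpq)
  simpa [add_assoc] using this

/-- The exact pairs. -/
theorem pairs (C : Ctx G S x) {v u w b : V} (E : N3 G S v u w b) :
    h G x S ≤ B G x S {v} ∅ + B G x S {u, w} ∅ + B G x S {u, b} ∅ + B G x S {w, b} ∅ := by
  have := coverL (G := G) (S := S) C.x0 [{v}, {u, w}, {u, b}, {w, b}] (by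
    intro D hD
    by_cases hvD : v ∈ D
    · exact ⟨{v}, by simp, sub_one hvD⟩
    rcases E.pair hD hvD with h1 | h1 | h1
    · exact ⟨{u, w}, by simp, sub_pair h1.1 h1.2.1⟩
    · exact ⟨{u, b}, by simp, sub_pair h1.1 h1.2.1⟩
    · exact ⟨{w, b}, by simp, sub_pair h1.1 h1.2.1⟩)
  simpa [add_assoc] using this

/-- Pivoting at `b`: `v | b | u, w`. -/
theorem pivot_b (C : Ctx G S x) {v u w b : V} (E : N3 G S v u w b) :
    h G x S ≤ B G x S {v} ∅ + B G x S {b} ∅ + B G x S {u, w} ∅ := by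
  have := coverL (G := G) (S := S) C.x0 [{v}, {b}, {u, w}] (by
    intro D hD
    by_cases hvD : v ∈ D
    · exact ⟨{v}, by simp, sub_one hvD⟩
    by_cases hbD : b ∈ D
    · exact ⟨{b}, by simp, sub_one hbD⟩
    rcases E.pair hD hvD with h1 | h1 | h1
    · exact ⟨{u, w}, by simp, sub_pair h1.1 h1.2.1⟩
    · exact absurd h1.2.1 hbD
    · exact absurd h1.2.1 hbD)
  simpa [add_assoc] using this

/-- If `v, w ∉ D` is impossible because `N(w) ⊆ N(b)`. -/
theorem cn_lt (C : Ctx G S x) {v u w b : V} (E : N3 G S v u w b) :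
    cn G S w b + 2 ≤ dg G S w := C.cn_add_two E.s12.s23

end Ctx

end

end D28
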