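import Pool.Agent.D28.Caps

/-!
# Adjacent cubic vertices (steps S2 - S6)
-/

open Finset Classical H61DIS

namespace D28

noncomputable section

variable {V : Type*} {G : SimpleGraph V} {S : Finset V} {x : ℝ}

namespace Ctx

/-! ### Numbers -/

theorem pw (C : Ctx G S x) (k : ℕ) : x ^ k ≤ (81949 / 100000 : ℝ) ^ k :=
  pow_le_pow_left₀ C.x0 (D88.num_lt C.hx0 C.hx).le k

theorem g (C : Ctx G S x) : 90195 / 100000 ≤ 2 * x ^ 4 := by
  have h1 : (81948 / 100000 : ℝ) ^ 4 ≤ x ^ 4 :=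
    pow_le_pow_left₀ (by norm_num) (D88.num_gt C.hx0 C.hx).le 4
  have h2 : (90195 / 200000 : ℝ) ≤ (81948 / 100000 : ℝ) ^ 4 := by norm_num
  linarith

theorem b4 (C : Ctx G S x) : x ^ 4 ≤ 45100 / 100000 := (C.pw 4).trans (by norm_num)
theorem b5 (C : Ctx G S x) : x ^ 5 ≤ 36959 / 100000 := (C.pw 5).trans (by norm_num)
theorem b6 (C : Ctx G S x) : x ^ 6 ≤ 30288 / 100000 := (C.pw 6).trans (by norm_num)
theorem b7 (C : Ctx G S x) : x ^ 7 ≤ 24821 / 100000 := (C.pw 7).trans (by norm_num)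
theorem b8 (C : Ctx G S x) : x ^ 8 ≤ 20340 / 100000 := (C.pw 8).trans (by norm_num)
theorem b9 (C : Ctx G S x) : x ^ 9 ≤ 16667 / 100000 := by rw [C.hx]; norm_num
theorem b10 (C : Ctx G S x) : x ^ 10 ≤ 13660 / 100000 := (C.pw 10).trans (by norm_num)
theorem b11 (C : Ctx G S x) : x ^ 11 ≤ 11194 / 100000 := (C.pw 11).trans (by norm_num)
theorem b12 (C : Ctx G S x) : x ^ 12 ≤ 9174 / 100000 := (C.pw 12).trans (by norm_num)
theorem b13 (C : Ctx G S x) : x ^ 13 ≤ 7518 / 100000 := (C.pw 13).trans (by norm_num)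
theorem b14 (C : Ctx G S x) : x ^ 14 ≤ 6161 / 100000 := (C.pw 14).trans (by norm_num)

/-! ### S2 -/

/-- Adjacent cubic vertices are in no 4-cycle. -/
theorem noC4 (C : Ctx G S x) {v u w b p q : V} (E : N3 G S v u w b) (F : N3 G S u v p q) :
    ¬ G.Adj w p := by
  intro hwp
  apply C.not_two E.hv E.aS
  intro D hD hvD
  by_contra huD
  have hind := (mem_dis.mp hD).2.1
  have hw : w ∈ D := by
    rcases E.pair hD hvD with h1 | h1 | h1
    · exact absurd h1.1 huD
    · exact absurd h1.1 huD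
    · exact h1.1
  have hp : p ∈ D := by
    rcases F.pair hD huD with h1 | h1 | h1
    · exact absurd h1.1 hvD
    · exact absurd h1.1 hvD
    · exact h1.1
  exact hind w hw p hp hwp

/-- `c(u,w) ≤ 1`. -/
theorem cn1 (C : Ctx G S x) {v u w b p q : V} (E : N3 G S v u w b) (F : N3 G S u v p q) :
    cn G S u w ≤ 1 := by
  apply cn_le_one (v := v)
  intro z hz hzv huz hwz
  rcases F.all z (mem_nb.mpr ⟨hz, huz⟩) with rfl | rfl | rfl
  · exact hzv rfl
  · exact C.noC4 E F hwz
  · exact C.noC4 E F.s23 hwz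

/-! ### S3 -/

theorem S3 (C : Ctx G S x) {v u w b : V} (E : N3 G S v u w b) (hu : dg G S u = 3)
    (hw : 5 ≤ dg G S w) (hb : 5 ≤ dg G S b) : False := by
  obtain ⟨p, q, F⟩ := exists_fst E.aS hu (mem_nb.mpr ⟨E.hv, E.va.symm⟩)
  obtain ⟨huw, hub, hwb⟩ := C.indep3 E
  have h1 := E.half C.x0
  have h2 : B G x S {u} ∅ ≤ B G x S {u, w} ∅ + B G x S {u, b} ∅ := by
    apply B_split C.x0
    intro D hD huD
    have huD' : u ∈ D := huD (by simp)
    have hvD : v ∉ D := fun hh => (mem_dis.mp hD).2.1 v hh u huD' E.va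
    rcases E.pair hD hvD with h1 | h1 | h1
    · left; exact sub_pair h1.1 h1.2.1
    · right; exact sub_pair h1.1 h1.2.1
    · left; exact sub_pair huD' h1.1
  have c1 := C.cn1 E F
  have c2 := C.cn1 E.s23 F
  have h3 := C.pair E.aS E.bS E.ab huw (k := 9) (by omega)
  have h4 := C.pair E.aS E.cS E.ac hub (k := 9) (by omega)
  have h5 := C.single E.hv (k := 4) (by rw [E.dg_eq])
  have h6 := C.singleL E.bS E.aS E.ab (fun hh => huw hh.symm) (by omega) (k := 6) (by omega)
  have h7 := C.singleL E.cS E.aS E.ac (fun hh => hub hh.symm) (by omega) (k := 6) (by omega)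
  norm_num at h6 h7
  have := C.hH
  have := C.g
  have := C.b4
  have := C.b9
  have := C.b10
  linarith

/-! ### S4 -/

/-- For adjacent cubic vertices `Q_v` is low. -/
theorem pv (C : Ctx G S x) {v u w b : V} (E : N3 G S v u w b) (hu : dg G S u = 3) :
    B G x S {v} ∅ ≤ 2 * x ^ 8 := by
  obtain ⟨p, q, F⟩ := exists_fst E.aS hu (mem_nb.mpr ⟨E.hv, E.va.symm⟩)
  obtain ⟨hvp, hvq, -⟩ := C.indep3 F
  have hor : dg G S p ≤ 4 ∨ dg G S q ≤ 4 := by
    by_contra hh
    push Not at hh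
    exact C.S3 F E.dg_eq (by omega) (by omega)
  rcases hor with h1 | h1
  · have hc := cn_pos (G := G) (S := S) (u := v) (w := p) E.aS E.va (mem_nb.mp F.hb).2.symm
    exact C.singleL E.hv F.bS F.ab.symm hvp (by omega) (k := 4) (by rw [E.dg_eq])
  · have hc := cn_pos (G := G) (S := S) (u := v) (w := q) E.aS E.va (mem_nb.mp F.hc).2.symm
    exact C.singleL E.hv F.cS F.ac.symm hvq (by omega) (k := 4) (by rw [E.dg_eq])

/-! ### The cover used in S5 -/

theorem cover5 (C : Ctx G S x) {v u w b p q : V} (E : N3 G S v u w b) (F : N3 G S u v p q) :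
    h G x S ≤ B G x S {v} ∅ + B G x S {u, w} ∅ + B G x S {u, b} ∅ + B G x S {w, b, p, q} ∅ := by
  have := coverL (G := G) (S := S) C.x0 [{v}, {u, w}, {u, b}, {w, b, p, q}] (by
    intro D hD
    by_cases hvD : v ∈ D
    · exact ⟨{v}, by simp, sub_one hvD⟩
    by_cases huD : u ∈ D
    · rcases E.pair hD hvD with h1 | h1 | h1
      · exact ⟨{u, w}, by simp, sub_pair h1.1 h1.2.1⟩
      · exact ⟨{u, b}, by simp, sub_pair h1.1 h1.2.1⟩
      · exact ⟨{u, w}, by simp, sub_pair huD h1.1⟩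
    · refine ⟨{w, b, p, q}, by simp, ?_⟩
      have hwb : w ∈ D ∧ b ∈ D := by
        rcases E.pair hD hvD with h1 | h1 | h1
        · exact absurd h1.1 huD
        · exact absurd h1.1 huD
        · exact ⟨h1.1, h1.2.1⟩
      have hpq : p ∈ D ∧ q ∈ D := by
        rcases F.pair hD huD with h1 | h1 | h1
        · exact absurd h1.1 hvD
        · exact absurd h1.1 hvD
        · exact ⟨h1.1, h1.2.1⟩
      exact sub_quad hwb.1 hwb.2 hpq.1 hpq.2)
  simpa [add_assoc] using this

/-- The cap for `{w, b, p, q}`. -/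
theorem quad5 (C : Ctx G S x) {v u w b p q : V} (E : N3 G S v u w b) (F : N3 G S u v p q)
    {k : ℕ} (hk : k + cn G S w b ≤ dg G S w + dg G S b + 5) :
    B G x S {w, b, p, q} ∅ ≤ x ^ k := by
  obtain ⟨huw, hub, hwb⟩ := C.indep3 E
  exact C.quad E.aS E.bS E.cS E.bc hwb E.ab E.ac (fun hh => huw hh.symm) (fun hh => hub hh.symm)
    F.hb F.hc F.bc (C.noC4 E F) (C.noC4 E.s23 F) (C.noC4 E F.s23) (C.noC4 E.s23 F.s23) hk

/-! ### S5 -/

theorem S5 (C : Ctx G S x) {v u w b : V} (E : N3 G S v u w b) (hu : dg G S u = 3)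
    (hw : dg G S w = 4) (hb : 4 ≤ dg G S b) : False := by
  obtain ⟨p, q, F⟩ := exists_fst E.aS hu (mem_nb.mpr ⟨E.hv, E.va.symm⟩)
  obtain ⟨huw, hub, hwb⟩ := C.indep3 E
  have c1 := C.cn1 E F
  have c2 := C.cn1 E.s23 F
  have c3 := C.cn_lt E
  have c4 := cn_pos (G := G) (S := S) (u := w) (w := b) E.hv E.vb.symm E.vc.symm
  have c5 := cn_comm (G := G) (S := S) w b
  have h1 := C.cover5 E F
  have h2 := C.pv E hu
  have hH := C.hH
  have hg := C.g
  have := C.b8
  rcases hb.eq_or_lt with hb4 | hb5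
  · have h3 := C.pairL E.aS E.bS E.ab huw E.cS E.ac.symm E.bc.symm hub hwb (by omega) (k := 8)
      (by omega)
    have h4 := C.pairL E.aS E.cS E.ac hub E.bS E.ab.symm E.bc huw (fun hh => hwb hh.symm)
      (by omega) (k := 8) (by omega)
    have h5 := C.quad5 E F (k := 11) (by omega)
    norm_num at h3 h4
    have := C.b12
    have := C.b11
    linarith
  · have h3 := C.pair E.aS E.bS E.ab huw (k := 8) (by omega)
    have h4 := C.pairL E.aS E.cS E.ac hub E.bS E.ab.symm E.bc huw (fun hh => hwb hh.symm)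
      (by omega) (k := 9) (by omega)
    have h5 := C.quad5 E F (k := 12) (by omega)
    norm_num at h4
    have := C.b13
    have := C.b12
    linarith

/-! ### The cover used in S6 -/

theorem cover6 (C : Ctx G S x) {v u w b p q r s : V} (E : N3 G S v u w b) (F : N3 G S u v p q)
    (F' : N3 G S w v r s) :
    h G x S ≤ B G x S {v} ∅ + B G x S {u, w} ∅ + B G x S {w, b, p, q} ∅ +
      B G x S {u, b, r, s} ∅ := by
  have := coverL (G := G) (S := S) C.x0 [{v}, {u, w}, {w, b, p, q}, {u, b, r, s}] (by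
    intro D hD
    by_cases hvD : v ∈ D
    · exact ⟨{v}, by simp, sub_one hvD⟩
    by_cases huD : u ∈ D
    · by_cases hwD : w ∈ D
      · exact ⟨{u, w}, by simp, sub_pair huD hwD⟩
      · refine ⟨{u, b, r, s}, by simp, ?_⟩
        have hbD : b ∈ D := by
          rcases E.pair hD hvD with h1 | h1 | h1
          · exact absurd h1.2.1 hwD
          · exact h1.2.1
          · exact h1.2.1
        have hrs : r ∈ D ∧ s ∈ D := by
          rcases F'.pair hD hwD with h1 | h1 | h1
          · exact absurd h1.1 hvD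
          · exact absurd h1.1 hvD
          · exact ⟨h1.1, h1.2.1⟩
        exact sub_quad huD hbD hrs.1 hrs.2
    · refine ⟨{w, b, p, q}, by simp, ?_⟩
      have hwb : w ∈ D ∧ b ∈ D := by
        rcases E.pair hD hvD with h1 | h1 | h1
        · exact absurd h1.1 huD
        · exact absurd h1.1 huD
        · exact ⟨h1.1, h1.2.1⟩
      have hpq : p ∈ D ∧ q ∈ D := by
        rcases F.pair hD huD with h1 | h1 | h1
        · exact absurd h1.1 hvD
        · exact absurd h1.1 hvD
        · exact ⟨h1.1, h1.2.1⟩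
      exact sub_quad hwb.1 hwb.2 hpq.1 hpq.2)
  simpa [add_assoc] using this

/-! ### S6, mixed -/

theorem S6 (C : Ctx G S x) {v u w b : V} (E : N3 G S v u w b) (hu : dg G S u = 3)
    (hw : dg G S w = 3) (hb : 4 ≤ dg G S b) : False := by
  obtain ⟨p, q, F⟩ := exists_fst E.aS hu (mem_nb.mpr ⟨E.hv, E.va.symm⟩)
  obtain ⟨r, s, F'⟩ := exists_fst E.bS hw (mem_nb.mpr ⟨E.hv, E.vb.symm⟩)
  obtain ⟨huw, hub, hwb⟩ := C.indep3 E
  have c1 := C.cn1 E F
  have c2 := C.cn1 E.s23 F
  have c3 := C.cn1 (E.s12.s23) F'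
  have c4 := cn_pos (G := G) (S := S) (u := w) (w := b) E.hv E.vb.symm E.vc.symm
  have h1 := C.cover6 E F F'
  have h2 := C.pv E hu
  have hH := C.hH
  have hg := C.g
  have := C.b8
  rcases hb.eq_or_lt with hb4 | hb5
  · have h3 := C.pairL E.aS E.bS E.ab huw E.cS E.ac.symm E.bc.symm hub hwb (by omega) (k := 7)
      (by omega)
    have h4 := C.quad5 E F (k := 11) (by omega)
    have h5 := C.quad5 E.s12 F' (k := 11) (by omega)
    norm_num at h3
    have := C.b11
    linarith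
  · have h3 := C.pair E.aS E.bS E.ab huw (k := 7) (by omega)
    have h4 := C.quad5 E F (k := 12) (by omega)
    have h5 := C.quad5 E.s12 F' (k := 12) (by omega)
    have := C.b7
    have := C.b12
    linarith

/-- Adjacent cubic vertices: all neighbours are cubic. -/
theorem cubic_nb (C : Ctx G S x) {v u w b : V} (E : N3 G S v u w b) (hu : dg G S u = 3) :
    dg G S w = 3 ∧ dg G S b = 3 := by
  have g1 := C.h3 w E.bS
  have g2 := C.h3 b E.cS
  by_contra hcon
  rcases g1.eq_or_lt with hw | hw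
  · rcases g2.eq_or_lt with hb | hb
    · exact hcon ⟨hw.symm, hb.symm⟩
    · exact C.S6 E hu hw.symm hb
  · rcases g2.eq_or_lt with hb | hb
    · exact C.S6 E.s23 hu hb.symm hw
    · rcases Nat.lt_or_ge (dg G S w) 5 with hw5 | hw5
      · exact C.S5 E hu (by omega) hb
      · rcases Nat.lt_or_ge (dg G S b) 5 with hb5 | hb5
        · exact C.S5 E.s23 hu (by omega) hw
        · exact C.S3 E hu hw5 hb5

end Ctx

end

end D28
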