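import Pool.Agent.D28.Cubic
import Pool.Agent.H61DIS.S7

/-!
# Step (II): a graph with a vertex of degree at most three has `h ≤ 2 x^4`
-/

open Finset Classical H61DIS

namespace D28

noncomputable section

variable {V : Type*} {G : SimpleGraph V} {S : Finset V} {x : ℝ}

/-- `h` is submultiplicative over a partition without edges between the parts. -/
theorem h_split (hx0 : 0 ≤ x) {A : Finset V} (hA : A ⊆ S)
    (hno : ∀ a ∈ A, ∀ b ∈ S \ A, ¬ G.Adj a b) : h G x S ≤ h G x A * h G x (S \ A) := by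
  have key : ∀ A : Finset V, A ⊆ S → (∀ a ∈ A, ∀ b ∈ S \ A, ¬ G.Adj a b) →
      ∀ D ∈ dis G S, D ∩ A ∈ dis G A := by
    intro A hA hno D hD
    rw [mem_dis] at hD ⊢
    refine ⟨Finset.inter_subset_right, ?_, ?_⟩
    · intro u hu v hv
      exact hD.2.1 u (Finset.mem_inter.mp hu).1 v (Finset.mem_inter.mp hv).1
    · intro v hvA hvD
      have hvD' : v ∉ D := fun hh => hvD (Finset.mem_inter.mpr ⟨hh, hvA⟩)
      refine (hD.2.2 v (hA hvA) hvD').trans (Finset.card_le_card ?_)
      intro u hu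
      rw [mem_nb] at hu ⊢
      refine ⟨Finset.mem_inter.mpr ⟨hu.1, ?_⟩, hu.2⟩
      by_contra huA
      exact hno v hvA u (Finset.mem_sdiff.mpr ⟨hD.1 hu.1, huA⟩) hu.2
  have hno' : ∀ a ∈ S \ A, ∀ b ∈ S \ (S \ A), ¬ G.Adj a b := by
    intro a ha b hb hab
    have hbA : b ∈ A := by
      rw [Finset.mem_sdiff, Finset.mem_sdiff] at hb
      by_contra hh
      exact hb.2 ⟨hb.1, hh⟩
    exact hno b hbA a ha hab.symm
  have h1 : (dis G S).card ≤ (dis G A).card * (dis G (S \ A)).card := by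
    rw [← Finset.card_product]
    apply Finset.card_le_card_of_injOn (fun D => (D ∩ A, D ∩ (S \ A)))
    · intro D hD
      rw [Finset.mem_coe] at hD
      rw [Finset.mem_coe, Finset.mem_product]
      exact ⟨key A hA hno D hD, key (S \ A) Finset.sdiff_subset hno' D hD⟩
    · intro D hD D' hD' heq
      rw [Finset.mem_coe] at hD hD'
      have e1 : ∀ D ∈ dis G S, D = (D ∩ A) ∪ (D ∩ (S \ A)) := by
        intro D hD
        rw [← Finset.inter_union_distrib_left, Finset.union_sdiff_of_subset hA]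
        exact (Finset.inter_eq_left.mpr (mem_dis.mp hD).1).symm
      have h2 : D ∩ A = D' ∩ A := congrArg Prod.fst heq
      have h3 : D ∩ (S \ A) = D' ∩ (S \ A) := congrArg Prod.snd heq
      rw [e1 D hD, e1 D' hD', h2, h3]
  have h2 : ((dis G S).card : ℝ) ≤ ((dis G A).card : ℝ) * ((dis G (S \ A)).card : ℝ) := by
    exact_mod_cast h1
  have h3 : S.card = A.card + (S \ A).card := by
    have := Finset.card_sdiff_add_card_eq_card hA
    omega
  unfold h
  rw [h3, pow_add]
  calc ((dis G S).card : ℝ) * (x ^ A.card * x ^ (S \ A).card)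
      ≤ (((dis G A).card : ℝ) * ((dis G (S \ A)).card : ℝ)) * (x ^ A.card * x ^ (S \ A).card) :=
        mul_le_mul_of_nonneg_right h2 (by positivity)
    _ = _ := by ring

theorem dg_mono {A : Finset V} (hA : A ⊆ S) (y : V) : dg G A y ≤ dg G S y :=
  Finset.card_le_card (nb_mono hA y)

/-- Counting bound in a set of ten vertices. -/
theorem cnt_ten (hx0 : 0 ≤ x) (hx1 : x ≤ 1) (h10 : S.card = 10) {T : Finset V} {κ : ℝ}
    (hκ : h G x (rem G S T ∅) ≤ κ) {m j : ℕ} (hm : m + (rem G S T ∅).card ≤ S.card)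
    (hj : j + m = 10) : (cnt G S T ∅ : ℝ) * x ^ j ≤ κ := by
  have h1 : (cnt G S T ∅ : ℝ) ≤ ((dis G (rem G S T ∅)).card : ℝ) := by
    exact_mod_cast cnt_le S T ∅
  have h2 : x ^ j ≤ x ^ (rem G S T ∅).card := pow_le_pow_of_le_one hx0 hx1 (by omega)
  calc (cnt G S T ∅ : ℝ) * x ^ j ≤ ((dis G (rem G S T ∅)).card : ℝ) * x ^ j := by gcongr
    _ ≤ ((dis G (rem G S T ∅)).card : ℝ) * x ^ (rem G S T ∅).card := by gcongr
    _ ≤ κ := hκ

namespace Ctx

/-- All vertices cubic. -/
theorem allCubic (C : Ctx G S x) (hall : ∀ w ∈ S, dg G S w = 3) {v u w b : V}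
    (E : N3 G S v u w b) : False := by
  have hu := hall u E.aS
  have hw := hall w E.bS
  have hb := hall b E.cS
  obtain ⟨p, q, F⟩ := exists_fst E.aS hu (mem_nb.mpr ⟨E.hv, E.va.symm⟩)
  obtain ⟨r, s, F'⟩ := exists_fst E.bS hw (mem_nb.mpr ⟨E.hv, E.vb.symm⟩)
  obtain ⟨huw, hub, hwb⟩ := C.indep3 E
  have c1 := C.cn1 E F
  have c2 := C.cn1 E.s23 F
  have c3 := C.cn1 (E.s12.s23) F'
  have c4 := cn_pos (G := G) (S := S) (u := w) (w := b) E.hv E.vb.symm E.vc.symm
  have h1 := C.cover6 E F F'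
  have hH := C.hH
  have hg := C.g
  have hx0 := C.x0
  have hx1 := C.x1
  -- the ten vertices
  have ten : ∀ {v u w b p q : V}, N3 G S v u w b → N3 G S u v p q → cn G S w b ≤ 1 →
      dg G S w = 3 → dg G S b = 3 →
      ∃ U : Finset V, U ⊆ S ∧ (∀ y ∈ U, y ∉ rem G S {w, b, p, q} ∅) ∧ 10 ≤ U.card := by
    intro v u w b p q E F hc hw hb
    obtain ⟨huw, hub, hwb⟩ := C.indep3 E
    have hp' := mem_nb.mp F.hb
    have hq' := mem_nb.mp F.hc
    have hwu : ¬ G.Adj w u := fun hh => huw hh.symm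
    have hbu : ¬ G.Adj b u := fun hh => hub hh.symm
    have hpw : p ≠ w := by rintro rfl; exact huw hp'.2
    have hpb : p ≠ b := by rintro rfl; exact hub hp'.2
    have hqw : q ≠ w := by rintro rfl; exact huw hq'.2
    have hqb : q ≠ b := by rintro rfl; exact hub hq'.2
    have h1 := quad_card (G := G) (S := S) E.bc hwb E.ab E.ac hwu hbu hp'.2.ne' hq'.2.ne' F.bc
      hpw hpb (C.noC4 E F) (C.noC4 E.s23 F) hqw hqb (C.noC4 E F.s23) (C.noC4 E.s23 F.s23)
    refine ⟨(cl G S w ∪ cl G S b) ∪ {u, p, q}, ?_, ?_, by omega⟩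
    · apply Finset.union_subset (Finset.union_subset (cl_sub E.bS) (cl_sub E.cS))
      intro y hy
      simp only [Finset.mem_insert, Finset.mem_singleton] at hy
      rcases hy with rfl | rfl | rfl
      · exact E.aS
      · exact hp'.1
      · exact hq'.1
    · intro y hy
      rcases Finset.mem_union.mp hy with hy | hy
      · rcases Finset.mem_union.mp hy with hy | hy
        · exact cl_blocked (by simp) y hy
        · exact cl_blocked (by simp) y hy
      · simp only [Finset.mem_insert, Finset.mem_singleton] at hy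
        rcases hy with rfl | rfl | rfl
        · exact not_mem_rem_of_adj (t := p) (by simp) hp'.2.symm
        · exact not_mem_rem_of_mem (by simp)
        · exact not_mem_rem_of_mem (by simp)
  obtain ⟨U, hU, hUb, hUc⟩ := ten E F (by have := cn_comm (G := G) (S := S) w b; omega) hw hb
  obtain ⟨U', hU', hUb', hUc'⟩ := ten E.s12 F' (by omega) hu hb
  have hS10 : 10 ≤ S.card := hUc.trans (Finset.card_le_card hU)
  rcases hS10.eq_or_lt with h10 | h11
  · -- exactly ten vertices
    have h10' : S.card = 10 := h10.symm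
    -- `v`
    have hv2 : cnt G S {v} ∅ ≤ 2 := by
      have hlow : ∃ y ∈ rem G S {v} ∅, dg G (rem G S {v} ∅) y ≤ 3 := by
        exact ⟨p, mem_rem_single F.bS F.ab.symm (C.indep F),
          (dg_mono (rem_subset S {v} ∅) p).trans (hall p F.bS).le⟩
      have h2 := cnt_ten (G := G) hx0 hx1 h10' (C.IH2 _ (rem_ssubset E.hv (by simp)) hlow)
        (m := 4) (j := 6) (by
          have := card_closed (G := G) (S := S) E.hv
          rw [E.dg_eq] at this
          omega) (by norm_num)
      by_contra hlt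
      have h3 : (3 : ℝ) ≤ (cnt G S {v} ∅ : ℝ) := by exact_mod_cast (by omega : 3 ≤ cnt G S {v} ∅)
      have h6 : (81948 / 100000 : ℝ) ^ 6 ≤ x ^ 6 :=
        pow_le_pow_left₀ (by norm_num) (D88.num_gt C.hx0 C.hx).le 6
      have h7 : (30285 / 100000 : ℝ) ≤ (81948 / 100000 : ℝ) ^ 6 := by norm_num
      have h8 := C.b4
      have h9 : (0 : ℝ) ≤ x ^ 6 := by positivity
      nlinarith
    have huw1 : cnt G S {u, w} ∅ ≤ 1 := by
      have hlow : ∃ y ∈ rem G S {u, w} ∅, dg G (rem G S {u, w} ∅) y ≤ 3 := by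
        refine ⟨b, ?_, ?_⟩
        · rw [mem_rem]
          refine ⟨E.cS, by simp [E.ac.symm, E.bc.symm], by simp, ?_⟩
          intro t ht
          simp only [Finset.mem_insert, Finset.mem_singleton] at ht
          rcases ht with rfl | rfl
          · exact hub
          · exact hwb
        · exact (dg_mono (rem_subset S {u, w} ∅) b).trans hb.le
      have h2 := cnt_ten (G := G) hx0 hx1 h10' (C.IH2 _ (rem_ssubset E.aS (by simp)) hlow)
        (m := 7) (j := 3) (by
          have h3 := cl_union_card (G := G) (S := S) E.ab huw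
          have := card_blocked (G := G) (S := S) (T := {u, w}) (R := ∅)
            (U := cl G S u ∪ cl G S w) (Finset.union_subset (cl_sub E.aS) (cl_sub E.bS)) (by
              intro y hy
              rcases Finset.mem_union.mp hy with hy | hy
              · exact cl_blocked (by simp) y hy
              · exact cl_blocked (by simp) y hy)
          omega) (by norm_num)
      by_contra hlt
      have h3 : (2 : ℝ) ≤ (cnt G S {u, w} ∅ : ℝ) := by
        exact_mod_cast (by omega : 2 ≤ cnt G S {u, w} ∅)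
      have h6 : x < 81949 / 100000 := D88.num_lt C.hx0 C.hx
      have h7 : (0 : ℝ) < x ^ 3 := pow_pos C.hx0 3
      have h8 : 2 * x ^ 4 = 2 * x * x ^ 3 := by ring
      nlinarith
    have hq1 : ∀ {T U : Finset V} {t : V}, t ∈ T → t ∈ S → U ⊆ S →
        (∀ y ∈ U, y ∉ rem G S T ∅) → 10 ≤ U.card → cnt G S T ∅ ≤ 1 := by
      intro T U t ht htS hU hb hc
      have h2 := cnt_ten (G := G) hx0 hx1 h10' (C.IH1 _ (rem_ssubset htS ht))
        (m := 10) (j := 0) (by have := card_blocked (G := G) hU hb; omega) (by norm_num)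
      rw [pow_zero, mul_one] at h2
      exact_mod_cast h2
    have hq2 := hq1 (T := {w, b, p, q}) (t := w) (by simp) E.bS hU hUb hUc
    have hq3 := hq1 (T := {u, b, r, s}) (t := u) (by simp) E.aS hU' hUb' hUc'
    have e : ∀ (T : Finset V) (m : ℕ), cnt G S T ∅ ≤ m → B G x S T ∅ ≤ m * x ^ 10 := by
      intro T m hm
      unfold B
      rw [h10']
      have : (cnt G S T ∅ : ℝ) ≤ (m : ℝ) := by exact_mod_cast hm
      exact mul_le_mul_of_nonneg_right this (by positivity)
    have e1 := e _ _ hv2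
    have e2 := e _ _ huw1
    have e3 := e _ _ hq2
    have e4 := e _ _ hq3
    have := C.b10
    push_cast at e1 e2 e3 e4
    linarith
  · -- at least eleven vertices
    have h2 := C.pv E hu
    have h3 := C.pairL E.aS E.bS E.ab huw E.cS E.ac.symm E.bc.symm hub hwb (by omega) (k := 7)
      (by omega)
    norm_num at h3
    have b11 := C.b11
    have b14 := C.b14
    have hq : ∀ {T U : Finset V} {t : V}, t ∈ T → t ∈ S → U ⊆ S →
        (∀ y ∈ U, y ∉ rem G S T ∅) → 10 ≤ U.card → B G x S T ∅ ≤ 12322 / 100000 := by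
      intro T U t ht htS hU hb hc
      by_cases hne : (rem G S T ∅).Nonempty
      · obtain ⟨y, hy⟩ := hne
        have hd : dg G (rem G S T ∅) y ≤ 3 :=
          (dg_mono (rem_subset S T ∅) y).trans (hall y (rem_subset _ _ _ hy)).le
        have := C.capL (k := 10) ht htS hU hb hc ⟨y, hy, hd⟩
        norm_num at this
        linarith
      · have := C.cap (k := 11) ht htS (Finset.Subset.refl S) (by
          intro y _ hy
          exact hne ⟨y, hy⟩) h11
        linarith
    have hq2 := hq (T := {w, b, p, q}) (t := w) (by simp) E.bS hU hUb hUc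
    have hq3 := hq (T := {u, b, r, s}) (t := u) (by simp) E.aS hU' hUb' hUc'
    have := C.b8
    linarith

end Ctx

/-- Step (II) of the proof of `mi_2(G) ≤ 6^(n/9)`. -/
theorem lowB (hx0 : 0 < x) (hx : x ^ 9 = 1 / 6)
    (IH1 : ∀ S', S' ⊂ S → h G x S' ≤ 1)
    (IH2 : ∀ S', S' ⊂ S → (∃ v ∈ S', dg G S' v ≤ 3) → h G x S' ≤ 2 * x ^ 4)
    (hv : ∃ v ∈ S, dg G S v ≤ 3) : h G x S ≤ 2 * x ^ 4 := by
  have hx1 : x < 81949 / 100000 := D88.num_lt hx0 hx
  have hx2 : 81948 / 100000 < x := D88.num_gt hx0 hx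
  by_cases hlow : ∃ v ∈ S, dg G S v ≤ 2
  · exact low (by linarith) (by linarith) IH1
      (fun S' hS' ⟨w, hw, hd⟩ => IH2 S' hS' ⟨w, hw, by omega⟩) hlow
  push Not at hlow
  have h3 : ∀ w ∈ S, 3 ≤ dg G S w := fun w hw => hlow w hw
  obtain ⟨v, hvS, hdv⟩ := hv
  have hdv3 : dg G S v = 3 := le_antisymm hdv (h3 v hvS)
  -- components
  by_cases hconn : ∃ A : Finset V, A ⊆ S ∧ A.Nonempty ∧ A ≠ S ∧
      ∀ a ∈ A, ∀ b ∈ S \ A, ¬ G.Adj a b
  · obtain ⟨A, hAS, hAne, hAneq, hno⟩ := hconn
    have h1 := h_split (G := G) hx0.le hAS hno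
    have hAss : A ⊂ S := Finset.ssubset_iff_subset_ne.mpr ⟨hAS, hAneq⟩
    have hBss : S \ A ⊂ S := by
      rw [Finset.ssubset_iff_subset_ne]
      refine ⟨Finset.sdiff_subset, ?_⟩
      intro hh
      obtain ⟨a, ha⟩ := hAne
      have : a ∈ S \ A := by rw [hh]; exact hAS ha
      exact (Finset.mem_sdiff.mp this).2 ha
    have n1 := h_nonneg (G := G) hx0.le A
    have n2 := h_nonneg (G := G) hx0.le (S \ A)
    have u1 := IH1 A hAss
    have u2 := IH1 (S \ A) hBss
    by_cases hvA : v ∈ A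
    · have hd : dg G A v ≤ 3 := (dg_mono hAS v).trans hdv
      have u3 := IH2 A hAss ⟨v, hvA, hd⟩
      calc h G x S ≤ h G x A * h G x (S \ A) := h1
        _ ≤ h G x A * 1 := mul_le_mul_of_nonneg_left u2 n1
        _ ≤ 2 * x ^ 4 := by linarith
    · have hvB : v ∈ S \ A := Finset.mem_sdiff.mpr ⟨hvS, hvA⟩
      have hd : dg G (S \ A) v ≤ 3 := (dg_mono Finset.sdiff_subset v).trans hdv
      have u3 := IH2 (S \ A) hBss ⟨v, hvB, hd⟩
      calc h G x S ≤ h G x A * h G x (S \ A) := h1
        _ ≤ 1 * h G x (S \ A) := mul_le_mul_of_nonneg_right u1 n2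
        _ ≤ 2 * x ^ 4 := by linarith
  push Not at hconn
  by_contra hcon
  push Not at hcon
  have C : Ctx G S x := ⟨hx0, hx, IH1, IH2, h3, hcon⟩
  by_cases hadj : ∃ z ∈ S, dg G S z = 3 ∧ ∃ y ∈ nb G S z, dg G S y = 3
  · -- everything is cubic
    have hall : ∀ w ∈ S, dg G S w = 3 := by
      set A : Finset V := S.filter (fun z => dg G S z = 3 ∧ ∃ y ∈ nb G S z, dg G S y = 3) with hA
      have hAne : A.Nonempty := by
        obtain ⟨z, hz, h1, h2⟩ := hadj
        exact ⟨z, by rw [hA, Finset.mem_filter]; exact ⟨hz, h1, h2⟩⟩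
      have hAeq : A = S := by
        by_contra hne
        obtain ⟨a, ha, b, hb, hab⟩ := hconn A (Finset.filter_subset _ _) hAne hne
        rw [hA, Finset.mem_filter] at ha
        obtain ⟨haS, hda, y, hy, hdy⟩ := ha
        have hbS := (Finset.mem_sdiff.mp hb).1
        obtain ⟨p, q, E⟩ := exists_fst haS hda hy
        have h4 := C.cubic_nb E hdy
        have hbN : b ∈ nb G S a := mem_nb.mpr ⟨hbS, hab⟩
        have hdb : dg G S b = 3 := by
          rcases E.all b hbN with rfl | rfl | rfl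
          · exact hdy
          · exact h4.1
          · exact h4.2
        apply (Finset.mem_sdiff.mp hb).2
        rw [hA, Finset.mem_filter]
        exact ⟨hbS, hdb, a, mem_nb.mpr ⟨haS, hab.symm⟩, hda⟩
      intro w hw
      rw [← hAeq, hA, Finset.mem_filter] at hw
      exact hw.2.1
    obtain ⟨u, w, b, E⟩ := N3.exists hvS hdv3
    exact C.allCubic hall E
  · push Not at hadj
    obtain ⟨u, w, b, E⟩ := N3.exists hvS hdv3
    obtain ⟨huw, hub, hwb⟩ := C.indep3 E
    have hd : ∀ y ∈ nb G S v, 4 ≤ dg G S y := by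
      intro y hy
      have h1 := hadj v hvS hdv3 y hy
      have h2 := h3 y (mem_nb.mp hy).1
      omega
    have K : K7 G x S v u w b := ⟨⟨hx0, hx, IH1, IH2⟩, E, huw, hub, hwb⟩
    have := K.all (hd u E.ha) (hd w E.hb) (hd b E.hc)
    linarith

end

end D28
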